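import Pool.Agent.W153.EO.Sep
import Pool.Agent.W153.EO.Count

set_option autoImplicit false

/-!
# The edge-ordered path of `W153.EO` beats every `n (log n) ^ c`, and a Kovari-Sos-Turan step

The host graphs of `Pool.Agent.W153.EO.Host` have `n 2 ^ (Ω (sqrt (log n)))` edges and avoid the pattern.
-/

namespace Pool.Agent.U474.EdgeOrd

open Finset Filter Topology Pool.Agent.W153.EO

/-- Weak form of the Kovari-Sos-Turan theorem. -/
theorem kst (N K : ℕ) (ε : ℝ) (hε : 0 < ε) : ∃ n0 : ℕ, ∀ n : ℕ, n0 ≤ n → ∀ G : SimpleGraph (Fin n),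
    ε * (n : ℝ) ^ 2 < (G.edgeSet.ncard : ℝ) →
    ∃ (A : Fin N → Fin n) (B : Fin K → Fin n), Function.Injective A ∧ Function.Injective B ∧
      ∀ i j, G.Adj (A i) (B j) := by
  classical
  refine ⟨⌈((K : ℝ) ^ 2 + N) / ε ^ (K + 1)⌉₊ + 1, ?_⟩
  intro n hn G hG
  have hn1 : ((K : ℝ) ^ 2 + N) / ε ^ (K + 1) < n := by
    have h1 := Nat.le_ceil (((K : ℝ) ^ 2 + N) / ε ^ (K + 1))
    have h2 : ((⌈((K : ℝ) ^ 2 + N) / ε ^ (K + 1)⌉₊ + 1 : ℕ) : ℝ) ≤ n := by exact_mod_cast hn
    push_cast at h2
    linarith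
  have hnpos : 0 < n := by omega
  have hnR : (0 : ℝ) < n := by exact_mod_cast hnpos
  rw [div_lt_iff₀ (by positivity)] at hn1
  by_contra hcon
  push Not at hcon
  -- tuples
  set T : Finset (Fin K → Fin n) := univ with hT
  set cn : (Fin K → Fin n) → Finset (Fin n) := fun b => univ.filter (fun v => ∀ j, G.Adj v (b j)) with hcn
  have hinj : ∀ b : Fin K → Fin n, Function.Injective b → (cn b).card < N := by
    intro b hb
    by_contra hge
    rw [not_lt] at hge
    obtain ⟨S, hS, hSc⟩ := exists_subset_card_eq hge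
    let A : Fin N → Fin n := fun i => (S.equivFin.symm (Fin.cast hSc.symm i)).1
    have hA : Function.Injective A := by
      intro i i' h
      have := S.equivFin.symm.injective (Subtype.ext h)
      exact Fin.cast_injective _ this
    obtain ⟨i, j, hij⟩ := hcon A b hA hb
    have hm := hS (S.equivFin.symm (Fin.cast hSc.symm i)).2
    rw [hcn, mem_filter] at hm
    exact hij (hm.2 j)
  have hcount : ∑ b : Fin K → Fin n, (cn b).card = ∑ v : Fin n, (G.neighborFinset v).card ^ K := by
    simp only [hcn, card_filter]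
    rw [sum_comm]
    refine sum_congr rfl fun v _ => ?_
    rw [← card_filter]
    have : (univ.filter (fun b : Fin K → Fin n => ∀ j, G.Adj v (b j))) =
        Fintype.piFinset (fun _ => G.neighborFinset v) := by
      ext b
      simp
    rw [this, Fintype.card_piFinset]
    simp
  have hlow : ε ^ (K + 1) * (n : ℝ) ^ (K + 1) ≤ ∑ v : Fin n, ((G.neighborFinset v).card : ℝ) ^ K := by
    set Hi : Finset (Fin n) := univ.filter (fun v => ε * n ≤ ((G.neighborFinset v).card : ℝ)) with hHi
    have hsum : 2 * (G.edgeSet.ncard : ℝ) = ∑ v : Fin n, ((G.neighborFinset v).card : ℝ) := by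
      have h1 := G.sum_degrees_eq_twice_card_edges
      have h2 : G.edgeSet.ncard = G.edgeFinset.card := by
        rw [← SimpleGraph.coe_edgeFinset, Set.ncard_coe_finset]
      rw [h2]
      have : ((2 * G.edgeFinset.card : ℕ) : ℝ) = ((∑ v : Fin n, G.degree v : ℕ) : ℝ) := by rw [h1]
      push_cast at this
      rw [this]
      rfl
    have hHc : ε * n ≤ (Hi.card : ℝ) := by
      have h1 : ∑ v : Fin n, ((G.neighborFinset v).card : ℝ) ≤ (Hi.card : ℝ) * n + n * (ε * n) := by
        rw [← sum_filter_add_sum_filter_not univ (fun v => ε * n ≤ ((G.neighborFinset v).card : ℝ))]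
        apply add_le_add
        · rw [← nsmul_eq_mul, ← sum_const]
          apply sum_le_sum
          intro v _
          have := card_le_univ (G.neighborFinset v)
          rw [Fintype.card_fin] at this
          exact_mod_cast this
        · have h3 : ∀ v ∈ univ.filter (fun v => ¬ ε * n ≤ ((G.neighborFinset v).card : ℝ)),
              ((G.neighborFinset v).card : ℝ) ≤ ε * n := by
            intro v hv
            rw [mem_filter, not_le] at hv
            exact hv.2.le
          refine (sum_le_sum h3).trans ?_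
          rw [sum_const, nsmul_eq_mul]
          apply mul_le_mul_of_nonneg_right _ (by positivity)
          have := card_le_univ (univ.filter (fun v : Fin n => ¬ ε * n ≤ ((G.neighborFinset v).card : ℝ)))
          rw [Fintype.card_fin] at this
          exact_mod_cast this
      rw [← hsum] at h1
      have h4 : 2 * (ε * (n : ℝ) ^ 2) ≤ (Hi.card : ℝ) * n + n * (ε * n) := by linarith
      have h5 : (ε * n) * n ≤ (Hi.card : ℝ) * n := by nlinarith
      exact le_of_mul_le_mul_right h5 hnR
    calc ε ^ (K + 1) * (n : ℝ) ^ (K + 1) = (ε * n) * (ε * n) ^ K := by ring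
      _ ≤ (Hi.card : ℝ) * (ε * n) ^ K := mul_le_mul_of_nonneg_right hHc (by positivity)
      _ = ∑ _v ∈ Hi, (ε * n) ^ K := by rw [sum_const, nsmul_eq_mul]
      _ ≤ ∑ v ∈ Hi, ((G.neighborFinset v).card : ℝ) ^ K := by
          apply sum_le_sum
          intro v hv
          rw [hHi, mem_filter] at hv
          exact pow_le_pow_left₀ (by positivity) hv.2 K
      _ ≤ _ := sum_le_sum_of_subset_of_nonneg (subset_univ _) (fun _ _ _ => by positivity)
  have hup : ∑ b : Fin K → Fin n, ((cn b).card : ℝ) ≤ ((K : ℝ) ^ 2 + N) * (n : ℝ) ^ K := by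
    rw [← sum_filter_add_sum_filter_not univ (fun b : Fin K → Fin n => Function.Injective b)]
    have h1 : ∑ b ∈ univ.filter (fun b : Fin K → Fin n => Function.Injective b), ((cn b).card : ℝ)
        ≤ N * (n : ℝ) ^ K := by
      calc _ ≤ ∑ _b ∈ univ.filter (fun b : Fin K → Fin n => Function.Injective b), (N : ℝ) := by
            apply sum_le_sum
            intro b hb
            rw [mem_filter] at hb
            exact_mod_cast (hinj b hb.2).le
        _ ≤ ∑ _b : Fin K → Fin n, (N : ℝ) :=
            sum_le_sum_of_subset_of_nonneg (subset_univ _) (fun _ _ _ => by positivity)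
        _ = N * (n : ℝ) ^ K := by
            rw [sum_const, nsmul_eq_mul, card_univ, Fintype.card_fun, Fintype.card_fin, Fintype.card_fin]
            push_cast
            ring
    have h2 : ((univ.filter (fun b : Fin K → Fin n => ¬ Function.Injective b)).card : ℝ) * n
        ≤ (K : ℝ) ^ 2 * (n : ℝ) ^ K := by
      have hsub : univ.filter (fun b : Fin K → Fin n => ¬ Function.Injective b) ⊆
          (univ : Finset (Fin K × Fin K)).biUnion (fun p => univ.filter
            (fun b : Fin K → Fin n => p.1 ≠ p.2 ∧ b p.1 = b p.2)) := by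
        intro b hb
        rw [mem_filter] at hb
        have := hb.2
        unfold Function.Injective at this
        push Not at this
        obtain ⟨i, j, h, hne⟩ := this
        rw [mem_biUnion]
        exact ⟨(i, j), mem_univ _, by rw [mem_filter]; exact ⟨mem_univ _, hne, h⟩⟩
      have hcard : ∀ p : Fin K × Fin K, (univ.filter
            (fun b : Fin K → Fin n => p.1 ≠ p.2 ∧ b p.1 = b p.2)).card * n ≤ n ^ K := by
        rintro ⟨i, j⟩
        by_cases hij : i = j
        · simp [hij]
        have hle : ((univ.filter (fun b : Fin K → Fin n => i ≠ j ∧ b i = b j)) ×ˢ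
            (univ : Finset (Fin n))).card ≤ (univ : Finset (Fin K → Fin n)).card := by
          apply card_le_card_of_injOn (fun x => Function.update x.1 j x.2)
          · intro x _
            exact mem_univ _
          · rintro ⟨b, x⟩ hb ⟨b', x'⟩ hb' h
            simp only [coe_product, coe_filter, mem_univ, true_and, coe_univ, Set.mem_prod,
              Set.mem_setOf_eq, Set.mem_univ, and_true] at hb hb'
            simp only at h
            have h1 : x = x' := by
              have := congrFun h j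
              simpa using this
            have h2 : ∀ l, l ≠ j → b l = b' l := by
              intro l hl
              have := congrFun h l
              simpa [Function.update_of_ne hl] using this
            have h3 : b = b' := by
              funext l
              by_cases hl : l = j
              · subst hl
                rw [← hb.2, ← hb'.2]
                exact h2 i hij
              · exact h2 l hl
            rw [h1, h3]
        rw [card_product, card_univ, card_univ, Fintype.card_fin, Fintype.card_fun, Fintype.card_fin,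
          Fintype.card_fin] at hle
        exact hle
      have hnat : (univ.filter (fun b : Fin K → Fin n => ¬ Function.Injective b)).card * n ≤
          K ^ 2 * n ^ K := by
        calc _ ≤ ((univ : Finset (Fin K × Fin K)).biUnion (fun p => univ.filter
            (fun b : Fin K → Fin n => p.1 ≠ p.2 ∧ b p.1 = b p.2))).card * n :=
              Nat.mul_le_mul_right _ (card_le_card hsub)
          _ ≤ (∑ p : Fin K × Fin K, (univ.filter
            (fun b : Fin K → Fin n => p.1 ≠ p.2 ∧ b p.1 = b p.2)).card) * n :=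
              Nat.mul_le_mul_right _ card_biUnion_le
          _ = ∑ p : Fin K × Fin K, (univ.filter
            (fun b : Fin K → Fin n => p.1 ≠ p.2 ∧ b p.1 = b p.2)).card * n := by rw [sum_mul]
          _ ≤ ∑ _p : Fin K × Fin K, n ^ K := sum_le_sum fun p _ => hcard p
          _ = K ^ 2 * n ^ K := by
              rw [sum_const, smul_eq_mul, card_univ, Fintype.card_prod, Fintype.card_fin]
              ring
      exact_mod_cast hnat
    have h3 : ∑ b ∈ univ.filter (fun b : Fin K → Fin n => ¬ Function.Injective b), ((cn b).card : ℝ)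
        ≤ (K : ℝ) ^ 2 * (n : ℝ) ^ K := by
      refine le_trans ?_ h2
      rw [← nsmul_eq_mul, ← sum_const]
      apply sum_le_sum
      intro b _
      have := card_le_univ (cn b)
      rw [Fintype.card_fin] at this
      exact_mod_cast this
    calc _ ≤ N * (n : ℝ) ^ K + (K : ℝ) ^ 2 * (n : ℝ) ^ K := add_le_add h1 h3
      _ = _ := by ring
  have hcountR : ∑ b : Fin K → Fin n, ((cn b).card : ℝ) =
      ∑ v : Fin n, ((G.neighborFinset v).card : ℝ) ^ K := by
    exact_mod_cast hcount
  rw [hcountR] at hup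
  have hfin : ε ^ (K + 1) * (n : ℝ) ^ (K + 1) ≤ ((K : ℝ) ^ 2 + N) * (n : ℝ) ^ K := hlow.trans hup
  have : ((K : ℝ) ^ 2 + N) * (n : ℝ) ^ K < (n * ε ^ (K + 1)) * (n : ℝ) ^ K :=
    mul_lt_mul_of_pos_right hn1 (by positivity)
  have h6 : (n * ε ^ (K + 1)) * (n : ℝ) ^ K = ε ^ (K + 1) * (n : ℝ) ^ (K + 1) := by ring
  rw [h6] at this
  linarith

/-- Graphs avoiding the pattern have `o(n ^ 2)` edges. -/
theorem small (ε : ℝ) (hε : 0 < ε) : ∃ n0 : ℕ, ∀ n : ℕ, n0 ≤ n → ∀ (G : SimpleGraph (Fin n))
    (g : Sym2 (Fin n) → ℕ), Set.InjOn g G.edgeSet → ¬ Cont G g →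
      (G.edgeSet.ncard : ℝ) ≤ ε * (n : ℝ) ^ 2 := by
  obtain ⟨N, K, hNK⟩ := exists_host
  obtain ⟨n0, h0⟩ := kst N K ε hε
  refine ⟨n0, fun n hn G g hg hC => ?_⟩
  by_contra hcon
  rw [not_le] at hcon
  obtain ⟨A, B, hA, hB, hAB⟩ := h0 n hn G hcon
  apply hC
  let ψ : Fin N ⊕ Fin K → Fin n := Sum.elim A B
  have hψ : Function.Injective ψ := by
    rintro (i | i) (j | j) h
    · exact congrArg Sum.inl (hA h)
    · exfalso
      have : A i = B j := h
      have h2 := hAB i j
      rw [this] at h2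
      exact G.loopless.irrefl _ h2
    · exfalso
      have : B i = A j := h
      have h2 := hAB j i
      rw [this] at h2
      exact G.loopless.irrefl _ h2
    · exact congrArg Sum.inr (hB h)
  have hadj : ∀ u v, (completeBipartiteGraph (Fin N) (Fin K)).Adj u v → G.Adj (ψ u) (ψ v) := by
    rintro (i | i) (j | j) h
    · simp at h
    · exact hAB i j
    · exact (hAB j i).symm
    · simp at h
  have hmem : ∀ x ∈ (completeBipartiteGraph (Fin N) (Fin K)).edgeSet, x.map ψ ∈ G.edgeSet := by
    intro x hx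
    induction x using Sym2.ind with
    | _ a b =>
      rw [Sym2.map_mk, SimpleGraph.mem_edgeSet]
      exact hadj a b hx
  have hinj : Set.InjOn (fun x => g (x.map ψ)) (completeBipartiteGraph (Fin N) (Fin K)).edgeSet := by
    intro x hx y hy hxy
    exact Sym2.map.injective hψ (hg (hmem x hx) (hmem y hy) hxy)
  obtain ⟨φ, h1, h2, h3⟩ := hNK _ hinj
  refine ⟨ψ ∘ φ, hψ.comp h1, fun u v huv => hadj _ _ (h2 u v huv), ?_⟩
  intro e₁ he₁ e₂ he₂ hlt
  have := h3 e₁ he₁ e₂ he₂ hlt
  simpa only [Sym2.map_map] using this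

/-- The numerical estimate. -/
lemma estimate' (c : ℕ) (C : ℝ) (b : ℕ) (hb : 1 ≤ b) (hlarge : 4 * |C| * (5 * (b : ℝ) ^ 2) ^ c < 2 ^ b) (n : ℕ)
    (hn : n = 2 ^ b * (b * 2 ^ b + 2 ^ b) ^ b + (2 * (b * 2 ^ b)) ^ b) :
    C * (n : ℝ) * Real.log (n : ℝ) ^ c < (((2 * (b * 2 ^ b)) ^ b * 2 ^ b : ℕ) : ℝ) := by
  have hb' : (0 : ℝ) < b := by exact_mod_cast hb
  have hb1 : (1 : ℝ) ≤ b := by exact_mod_cast hb
  set X : ℝ := ((b : ℝ) * 2 ^ b) ^ b with hX
  have hXpos : 0 < X := by positivity
  have h2b : (1 : ℝ) ≤ 2 ^ b := one_le_pow₀ (by norm_num)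
  have hnX : (n : ℝ) ≤ 4 * 2 ^ b * X := by
    rw [hn]
    push_cast
    have e1 : ((b : ℝ) * 2 ^ b + 2 ^ b) ^ b = (2 ^ b) ^ b * ((b : ℝ) + 1) ^ b := by
      rw [← mul_pow]
      congr 1
      ring
    have e2 : (2 * ((b : ℝ) * 2 ^ b)) ^ b = 2 ^ b * X := by
      rw [mul_pow, hX]
    rw [e1, e2]
    have e3 : (2 ^ b) ^ b * ((b : ℝ) + 1) ^ b ≤ 3 * X := by
      calc ((2 : ℝ) ^ b) ^ b * ((b : ℝ) + 1) ^ b ≤ (2 ^ b) ^ b * (3 * (b : ℝ) ^ b) :=
            mul_le_mul_of_nonneg_left (pow_ratio b hb) (by positivity)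
        _ = 3 * X := by
            rw [hX, mul_pow]
            ring
    calc (2 : ℝ) ^ b * ((2 ^ b) ^ b * ((b : ℝ) + 1) ^ b) + 2 ^ b * X
        ≤ 2 ^ b * (3 * X) + 2 ^ b * X := by
          have := mul_le_mul_of_nonneg_left e3 (by positivity : (0 : ℝ) ≤ 2 ^ b)
          linarith
      _ = 4 * 2 ^ b * X := by ring
  have hnpos : 0 < n := by
    rw [hn]
    have : 0 < (2 * (b * 2 ^ b)) ^ b := by positivity
    omega
  have hn1 : (1 : ℝ) ≤ n := by exact_mod_cast hnpos
  have hlog0 : 0 ≤ Real.log n := Real.log_nonneg hn1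
  have hlog2 : Real.log 2 ≤ 1 := by
    have := Real.log_two_lt_d9
    linarith
  have hlog2' : 0 ≤ Real.log 2 := Real.log_nonneg (by norm_num)
  have hlog : Real.log n ≤ 5 * (b : ℝ) ^ 2 := by
    calc Real.log n ≤ Real.log (4 * 2 ^ b * X) := Real.log_le_log (by linarith) hnX
      _ = 2 * Real.log 2 + b * Real.log 2 + b * (Real.log b + b * Real.log 2) := by
          rw [Real.log_mul (by positivity) (by positivity), Real.log_mul (by positivity) (by positivity),
            Real.log_pow, hX, Real.log_pow, Real.log_mul (by positivity) (by positivity), Real.log_pow,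
            show (4 : ℝ) = 2 ^ 2 by norm_num, Real.log_pow]
          push_cast
          ring
      _ ≤ 2 * 1 + b * 1 + b * (b + b * 1) := by
          have h1 := log_nat_le b hb
          have h2 : (b : ℝ) * Real.log 2 ≤ b * 1 := mul_le_mul_of_nonneg_left hlog2 hb'.le
          have h3 : (b : ℝ) * (Real.log b + b * Real.log 2) ≤ b * (b + b * 1) :=
            mul_le_mul_of_nonneg_left (by linarith) hb'.le
          linarith
      _ ≤ 5 * (b : ℝ) ^ 2 := by nlinarith
  have hE : (((2 * (b * 2 ^ b)) ^ b * 2 ^ b : ℕ) : ℝ) = 2 ^ b * (2 ^ b * X) := by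
    push_cast
    rw [mul_pow, hX]
    ring
  rw [hE]
  have hlogc : Real.log n ^ c ≤ (5 * (b : ℝ) ^ 2) ^ c := pow_le_pow_left₀ hlog0 hlog c
  calc C * (n : ℝ) * Real.log n ^ c ≤ |C| * n * Real.log n ^ c := by
        apply mul_le_mul_of_nonneg_right _ (by positivity)
        exact mul_le_mul_of_nonneg_right (le_abs_self C) (by positivity)
    _ ≤ |C| * (4 * 2 ^ b * X) * (5 * (b : ℝ) ^ 2) ^ c := by
        apply mul_le_mul _ hlogc (by positivity) (by positivity)
        exact mul_le_mul_of_nonneg_left hnX (abs_nonneg C)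
    _ = (4 * |C| * (5 * (b : ℝ) ^ 2) ^ c) * (2 ^ b * X) := by ring
    _ < 2 ^ b * (2 ^ b * X) := by
        apply mul_lt_mul_of_pos_right hlarge (by positivity)

lemma exists_b' (c : ℕ) (C : ℝ) : ∃ b : ℕ, 1 ≤ b ∧ 4 * |C| * (5 * (b : ℝ) ^ 2) ^ c < 2 ^ b := by
  have h1 : Tendsto (fun b : ℕ => (b : ℝ) ^ (2 * c) / 2 ^ b) atTop (𝓝 0) :=
    tendsto_pow_const_div_const_pow_of_one_lt (2 * c) (by norm_num)
  have h2 := h1.const_mul (4 * |C| * 5 ^ c)
  rw [mul_zero] at h2
  have h3 : ∀ᶠ b : ℕ in atTop, 4 * |C| * 5 ^ c * ((b : ℝ) ^ (2 * c) / 2 ^ b) < 1 :=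
    h2.eventually_lt_const (by norm_num)
  obtain ⟨b, hb⟩ := (h3.and (eventually_ge_atTop 1)).exists
  refine ⟨b, hb.2, ?_⟩
  have h4 := hb.1
  rw [← mul_div_assoc, div_lt_one (by positivity)] at h4
  rw [mul_pow, ← pow_mul, ← mul_assoc]
  exact h4

/-- The lower bound: more than `C n (log n) ^ c` edges. -/
theorem lower' (c : ℕ) (C : ℝ) : ∃ n : ℕ, 2 ≤ n ∧ ∃ G : SimpleGraph (Fin n), ∃ g : Sym2 (Fin n) → ℕ,
    Set.InjOn g G.edgeSet ∧ ¬ Cont G g ∧ C * (n : ℝ) * Real.log (n : ℝ) ^ c < (G.edgeSet.ncard : ℝ) := by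
  obtain ⟨b, hb1, hb⟩ := exists_b' c C
  obtain ⟨G, g, hg, hC, hcard⟩ := transport (host b (2 ^ b) (b * 2 ^ b)) (ord b (2 ^ b) (b * 2 ^ b))
    (ord_injOn _ _ _) (host_avoids _ _ _)
  have hn := host_card b (2 ^ b) (b * 2 ^ b)
  refine ⟨_, ?_, G, g, hg, hC, ?_⟩
  · rw [hn]
    have h1 : b < 2 ^ b := Nat.lt_two_pow_self
    have h2 : 2 ^ b ≤ (2 * (b * 2 ^ b)) ^ b := by
      apply Nat.pow_le_pow_left
      have : 1 ≤ b * 2 ^ b := Nat.one_le_iff_ne_zero.mpr (by positivity)
      omega
    omega
  · refine lt_of_lt_of_le (estimate' c C b hb1 hb _ hn) ?_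
    rw [hcard]
    exact_mod_cast host_edges b (2 ^ b) (b * 2 ^ b)

end Pool.Agent.U474.EdgeOrd
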